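import Pool.Agent.H41.SP.Basic

/-!
Large partial spreads of `Q(8t-2, q)` (MP_29035e_co): definitions and targets of the rows.
-/

namespace Pool.Agent.H52.PSR

open Module Pool.Agent.H41.SP

universe u v

/-- the sum of the squares of the eight coordinates -/
def N8 {E : Type*} [Field E] (x : Fin 8 → E) : E := ∑ i, x i ^ 2

/-- the standard bilinear form in eight variables -/
def B8 {E : Type*} [Field E] (x y : Fin 8 → E) : E := ∑ i, x i * y i

/-- `S` is a partial spread of the quadric `Q = 0`: its members are totally singular subspaces of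
vector space dimension `d`, and any two different members meet in the zero vector only. -/
structure IsPartialSpread {F : Type*} [Field F] {V : Type*} [AddCommGroup V] [Module F V]
    (Q : QuadraticForm F V) (d : ℕ) (S : Set (Submodule F V)) : Prop where
  tot : ∀ X ∈ S, ∀ x ∈ X, Q x = 0
  dim : ∀ X ∈ S, finrank F X = d
  disj : ∀ X ∈ S, ∀ Y ∈ S, X ≠ Y → X ⊓ Y = ⊥

/-- Row DIAG: a functional which turns `N8` into a sum of `8 H` squares over the prime field. -/
def T_DIAG : Prop :=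
  ∀ (p H : ℕ) [Fact p.Prime] (E : Type) [Field E] [Finite E], p ≠ 2 → Nat.card E = p ^ H →
    ∃ (l : E →+ ZMod p) (Φ : (Fin (8 * H) → ZMod p) →+ (Fin 8 → E)),
      ∀ z, l (N8 (Φ z)) = ∑ i, z i ^ 2

/-- Row COC: a large set without singular differences. -/
def T_COC : Prop :=
  ∀ (p H : ℕ) [Fact p.Prime] (E : Type) [Field E] [Finite E], p ≠ 2 → Nat.card E = p ^ H →
    ∃ A : Finset (Fin 8 → E), (∀ x ∈ A, ∀ y ∈ A, x ≠ y → N8 (x - y) ≠ 0) ∧
      p ^ (4 * H) ≤ A.card * (8 * H) ^ (4 * H)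

/-- Row CNT: the number of zeros of the sum of eight squares. -/
def T_CNT : Prop :=
  ∀ (E : Type) [Field E] [Finite E], (2 : E) ≠ 0 →
    Nat.card E ^ 7 ≤ Nat.card {x : Fin 8 → E // N8 x = 0}

/-- Row TRA: a translate of a set without singular differences meets the quadric in many points. -/
def T_TRA : Prop :=
  ∀ (E : Type) [Field E] [Finite E], (2 : E) ≠ 0 → ∀ A : Finset (Fin 8 → E),
    (∀ x ∈ A, ∀ y ∈ A, x ≠ y → N8 (x - y) ≠ 0) →
    ∃ T : Finset (Fin 8 → E), (∀ x ∈ T, x ≠ 0 ∧ N8 x = 0) ∧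
      (∀ x ∈ T, ∀ y ∈ T, x ≠ y → B8 x y ≠ 0) ∧ A.card ≤ T.card * Nat.card E

/-- Row OCI: the octonion product and its identities. -/
def T_OCI : Prop :=
  ∀ (E : Type) [Field E],
    ∃ (m : (Fin 8 → E) →ₗ[E] (Fin 8 → E) →ₗ[E] (Fin 8 → E)) (c : (Fin 8 → E) →ₗ[E] (Fin 8 → E)),
      (∀ a, c (c a) = a) ∧ (∀ a, N8 (c a) = N8 a) ∧
      (∀ a b z, m (c a) (m b z) + m (c b) (m a z) = (2 * B8 a b) • z) ∧
      (∀ a z, m (m a z) (c z) = N8 z • a)

/-- Row OCT: generators of the quadric `N8 = 0` attached to its points. -/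
def T_OCT : Prop :=
  ∀ (E : Type) [Field E], (2 : E) ≠ 0 →
    ∃ X : (Fin 8 → E) → Submodule E (Fin 8 → E),
      (∀ a, a ≠ 0 → N8 a = 0 → finrank E (X a) = 4 ∧ ∀ z ∈ X a, N8 z = 0) ∧
      (∀ a b, N8 a = 0 → N8 b = 0 → B8 a b ≠ 0 → X a ⊓ X b = ⊥)

/-- Row RED: field reduction and a hyperplane section. -/
def T_RED : Prop :=
  ∀ (F : Type u) [Field F] [Finite F] (E : Type) [Field E] [Finite E] [Algebra F E],
    (2 : F) ≠ 0 → ∀ S : Set (Submodule E (Fin 8 → E)),
    (∀ X ∈ S, finrank E X = 4 ∧ ∀ z ∈ X, N8 z = 0) →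
    (∀ X ∈ S, ∀ Y ∈ S, X ≠ Y → X ⊓ Y = ⊥) →
    ∃ (V : Type) (_ : AddCommGroup V) (_ : Module F V) (_ : Module.Finite F V)
      (Q : QuadraticForm F V) (S' : Set (Submodule F V)),
      NonSing Q ∧ finrank F V = 8 * finrank F E - 1 ∧
        IsPartialSpread Q (4 * finrank F E - 1) S' ∧ S'.ncard = S.ncard

/-- Row DG: normal form of non-singular quadratic forms over a finite field of odd order. -/
def T_DG : Prop :=
  ∀ (F : Type u) [Field F] [Finite F] (V : Type v) [AddCommGroup V] [Module F V]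
    [Module.Finite F V] (Q : QuadraticForm F V) (n : ℕ), (2 : F) ≠ 0 → NonSing Q →
    finrank F V = n + 1 →
    ∃ (d : F) (e : V ≃ₗ[F] (Fin (n + 1) → F)), d ≠ 0 ∧
      ∀ x, Q x = ∑ i : Fin n, e x i.castSucc ^ 2 + d * e x (Fin.last n) ^ 2

/-- Row SIM: in odd dimension all non-singular forms are similar. -/
def T_SIM : Prop :=
  ∀ (F : Type u) [Field F] [Finite F] (V : Type) [AddCommGroup V] [Module F V]
    [Module.Finite F V] (V' : Type v) [AddCommGroup V'] [Module F V'] [Module.Finite F V']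
    (Q : QuadraticForm F V) (Q' : QuadraticForm F V') (n : ℕ), (2 : F) ≠ 0 → NonSing Q →
    NonSing Q' → finrank F V = 2 * n + 1 → finrank F V' = 2 * n + 1 →
    ∃ (c : F) (e : V ≃ₗ[F] V'), c ≠ 0 ∧ ∀ x, Q' (e x) = c * Q x

/-- Row ASM: the theorem. -/
def T_ASM : Prop :=
  ∀ (p h t : ℕ) [Fact p.Prime] (F : Type u) [Field F] [Finite F] (V : Type v) [AddCommGroup V]
    [Module F V] [Module.Finite F V] (Q : QuadraticForm F V), p ≠ 2 → 1 ≤ t →
    Nat.card F = p ^ h → NonSing Q → finrank F V = 8 * t - 1 →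
    ∃ S : Set (Submodule F V), IsPartialSpread Q (4 * t - 1) S ∧
      Nat.card F ^ (3 * t) ≤ S.ncard * (8 * h * t) ^ (4 * h * t)

end Pool.Agent.H52.PSR
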